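import Pool.Agent.helper36.BExt.Analytic
import Pool.Agent.helper36.BExt.Closing

/-!
# Baire measurable maps on a Lindelöf set of extreme points have separable range

Let `X` be a compact convex subset of a Hausdorff locally convex space whose set `ext X` of extreme
points is Lindelöf.  Every Baire measurable map from `ext X` to a metrizable space (in particular
to a Fréchet space) has separable range.
-/

namespace Pool.Agent.Results.MP_fe178f_an.SeparableRange

open Set Topology TopologicalSpace MeasureTheory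
open Pool.Agent.helper36.BExt

/-- The Baire `σ`-algebra of a topological space `T`: the `σ`-algebra generated by the zero sets
`g ⁻¹' {0}` of the continuous functions `g : T → ℝ`. -/
def baireSigma (T : Type*) [TopologicalSpace T] : MeasurableSpace T :=
  MeasurableSpace.generateFrom {Z : Set T | ∃ g : T → ℝ, Continuous g ∧ Z = g ⁻¹' {0}}

/-- A map `f : T → F` is Baire measurable if the preimage of every open set is a Baire set. -/
def BaireMeasurable {T F : Type*} [TopologicalSpace T] [TopologicalSpace F] (f : T → F) : Prop :=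
  ∀ U : Set F, IsOpen U → MeasurableSet[baireSigma T] (f ⁻¹' U)

section baire

variable {E : Type*} [AddCommGroup E] [Module ℝ E] [TopologicalSpace E]
  [IsTopologicalAddGroup E] [ContinuousSMul ℝ E] [LocallyConvexSpace ℝ E] [T2Space E]

lemma exists_repr_cozero {X : Set E} (hX : IsCompact X)
    (hL : IsLindelof (X.extremePoints ℝ)) {g : X.extremePoints ℝ → ℝ} (hg : Continuous g) :
    ∃ Φ : Set (E →L[ℝ] ℝ), Φ.Countable ∧ ∃ C : Set (Φ → ℝ), MeasurableSet C ∧
      ∀ y : X.extremePoints ℝ, g y ≠ 0 ↔ ev Φ y.1 ∈ C := by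
  have := isLindelof_iff_lindelofSpace.mp hL
  -- the cozero set is Lindelöf
  have hU : IsLindelof (Subtype.val '' {y : X.extremePoints ℝ | g y ≠ 0}) := by
    have h1 : {y : X.extremePoints ℝ | g y ≠ 0} = ⋃ n : ℕ, {y | 1 / (n + 1 : ℝ) ≤ |g y|} := by
      ext y
      simp only [mem_ofPred_eq, mem_iUnion]
      constructor
      · intro hy
        obtain ⟨n, hn⟩ := exists_nat_one_div_lt (abs_pos.mpr hy)
        exact ⟨n, hn.le⟩
      · rintro ⟨n, hn⟩ h0
        rw [h0, abs_zero] at hn
        have : 0 < 1 / (n + 1 : ℝ) := by positivity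
        linarith
    rw [h1, image_iUnion]
    refine isLindelof_iUnion fun n => ?_
    exact (isClosed_le continuous_const hg.abs).isLindelof.image continuous_subtype_val
  have hopen : IsOpen {y : X.extremePoints ℝ | g y ≠ 0} :=
    isOpen_ne_fun hg continuous_const
  obtain ⟨O, hO, hOU⟩ := isOpen_induced_iff.mp hopen
  have hN : IsCompact (X \ O) := hX.diff hO
  have hd : Disjoint (Subtype.val '' {y : X.extremePoints ℝ | g y ≠ 0}) (X \ O) := by
    rw [Set.disjoint_left]
    rintro _ ⟨y, hy, rfl⟩ ⟨_, hyO⟩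
    rw [← hOU] at hy
    exact hyO hy
  obtain ⟨Φ, hΦ, V, ⟨C, hC, hVC⟩, hsub, hdV⟩ := exists_cyl_cover hU hN hd
  have := hΦ.to_subtype
  refine ⟨Φ, hΦ, C, hC.measurableSet, ?_⟩
  intro y
  constructor
  · intro hy
    have := hsub (mem_image_of_mem _ hy)
    rw [hVC] at this
    exact this
  · intro hy
    have hyV : y.1 ∈ V := by rw [hVC]; exact hy
    have h2 : y.1 ∉ X \ O := Set.disjoint_left.mp hdV hyV
    have h3 : y.1 ∈ O := by
      by_contra h
      exact h2 ⟨extremePoints_subset y.2, h⟩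
    have h4 : y ∈ Subtype.val ⁻¹' O := h3
    rw [hOU] at h4
    exact h4

lemma exists_repr {X : Set E} (hX : IsCompact X) (hL : IsLindelof (X.extremePoints ℝ))
    {B : Set (X.extremePoints ℝ)} (hB : MeasurableSet[baireSigma (X.extremePoints ℝ)] B) :
    ∃ Φ : Set (E →L[ℝ] ℝ), Φ.Countable ∧ ∃ C : Set (Φ → ℝ), MeasurableSet C ∧
      ∀ y : X.extremePoints ℝ, y ∈ B ↔ ev Φ y.1 ∈ C := by
  refine MeasurableSpace.generateFrom_induction
    (C := {Z : Set (X.extremePoints ℝ) | ∃ g : (X.extremePoints ℝ) → ℝ,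
      Continuous g ∧ Z = g ⁻¹' {0}})
    (p := fun B _ => ∃ Φ : Set (E →L[ℝ] ℝ), Φ.Countable ∧ ∃ C : Set (Φ → ℝ), MeasurableSet C ∧
      ∀ y : X.extremePoints ℝ, y ∈ B ↔ ev Φ y.1 ∈ C) ?_ ?_ ?_ ?_ B hB
  · rintro _ ⟨g, hg, rfl⟩ _
    obtain ⟨Φ, hΦ, C, hC, h⟩ := exists_repr_cozero hX hL hg
    refine ⟨Φ, hΦ, Cᶜ, hC.compl, fun y => ?_⟩
    rw [mem_compl_iff, ← h y, not_not]
    rfl
  · exact ⟨∅, countable_empty, ∅, MeasurableSet.empty, fun y => by simp⟩
  · rintro t _ ⟨Φ, hΦ, C, hC, h⟩
    refine ⟨Φ, hΦ, Cᶜ, hC.compl, fun y => ?_⟩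
    rw [mem_compl_iff, mem_compl_iff, h y]
  · intro s _ hs
    choose Φ hΦ C hC h using hs
    refine ⟨⋃ n, Φ n, countable_iUnion hΦ, ⋃ n, restr (subset_iUnion Φ n) ⁻¹' C n,
      MeasurableSet.iUnion fun n => (hC n).preimage (measurable_restr _), fun y => ?_⟩
    simp only [mem_iUnion, mem_preimage]
    exact exists_congr fun n => h n y

end baire

section separated

/-- In a metric space a non-separable set contains an uncountable uniformly separated set. -/
lemma exists_uncountable_separated {F : Type*} [PseudoMetricSpace F] {s : Set F}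
    (hs : ¬ IsSeparable s) :
    ∃ ε : ℝ, 0 < ε ∧ ∃ N ⊆ s, ¬ N.Countable ∧ ∀ x ∈ N, ∀ y ∈ N, x ≠ y → ε ≤ dist x y := by
  by_contra hcon
  push Not at hcon
  apply hs
  have h1 : ∀ n : ℕ, ∃ N ⊆ s, N.Countable ∧ ∀ x ∈ s, ∃ y ∈ N, dist x y < 1 / (n + 1 : ℝ) := by
    intro n
    have hpos : 0 < 1 / (n + 1 : ℝ) := by positivity
    obtain ⟨N, hN⟩ := zorn_subset
      {N : Set F | N ⊆ s ∧ ∀ x ∈ N, ∀ y ∈ N, x ≠ y → 1 / (n + 1 : ℝ) ≤ dist x y} (by
        intro c hc hchain
        refine ⟨⋃₀ c, ⟨sUnion_subset fun t ht => (hc ht).1, ?_⟩, fun t ht =>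
          subset_sUnion_of_mem ht⟩
        rintro x ⟨t, ht, hx⟩ y ⟨t', ht', hy⟩ hxy
        rcases hchain.total ht ht' with h | h
        · exact (hc ht').2 x (h hx) y hy hxy
        · exact (hc ht).2 x hx y (h hy) hxy)
    obtain ⟨⟨hNs, hNsep⟩, hmax⟩ := hN
    refine ⟨N, hNs, ?_, ?_⟩
    · by_contra hunc
      obtain ⟨x, hx, y, hy, hxy, hlt⟩ := hcon _ hpos N hNs hunc
      exact absurd (hNsep x hx y hy hxy) (not_le.mpr hlt)
    · intro x hx
      by_contra hfar
      push Not at hfar
      have hxN : x ∉ N := fun h => by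
        have := hfar x h
        rw [dist_self] at this
        linarith
      have hins : insert x N ∈
          {N : Set F | N ⊆ s ∧ ∀ x ∈ N, ∀ y ∈ N, x ≠ y → 1 / (n + 1 : ℝ) ≤ dist x y} := by
        refine ⟨insert_subset hx hNs, ?_⟩
        rintro a (rfl | ha) b (rfl | hb) hab
        · exact absurd rfl hab
        · exact hfar b hb
        · rw [dist_comm]; exact hfar a ha
        · exact hNsep a ha b hb hab
      exact hxN (hmax hins (subset_insert x N) (mem_insert x N))
  choose N hNs hNc hN using h1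
  refine ⟨⋃ n, N n, countable_iUnion hNc, ?_⟩
  intro x hx
  rw [Metric.mem_closure_iff]
  intro ε hε
  obtain ⟨n, hn⟩ := exists_nat_one_div_lt hε
  obtain ⟨y, hy, hxy⟩ := hN n x hx
  exact ⟨y, mem_iUnion.mpr ⟨n, hy⟩, hxy.trans hn⟩

/-- Every uncountable set has an uncountable subset which injects into the Cantor space. -/
lemma exists_uncountable_injOn {F : Type*} {N : Set F} (hN : ¬ N.Countable) :
    ∃ T ⊆ N, ¬ T.Countable ∧ ∃ j : F → (ℕ → Bool), InjOn j T := by
  classical
  have h1 : Cardinal.aleph 1 ≤ Cardinal.mk N := by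
    rw [← Cardinal.succ_aleph0]
    rw [Order.succ_le_iff]
    rw [← not_le]
    exact fun h => hN (Cardinal.le_aleph0_iff_set_countable.mp h)
  obtain ⟨T, hTN, hT⟩ := Cardinal.le_mk_iff_exists_subset.mp h1
  refine ⟨T, hTN, ?_, ?_⟩
  · intro hc
    have := Cardinal.le_aleph0_iff_set_countable.mpr hc
    rw [hT] at this
    exact absurd this (not_le.mpr Cardinal.aleph0_lt_aleph_one)
  · have h2 : Cardinal.lift.{0} (Cardinal.mk T) ≤ Cardinal.lift (Cardinal.mk (ℕ → Bool)) := by
      rw [hT]
      simpa using Cardinal.aleph_one_le_continuum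
    obtain ⟨e⟩ := Cardinal.lift_mk_le'.mp h2
    refine ⟨fun x => if h : x ∈ T then e ⟨x, h⟩ else fun _ => false, ?_⟩
    intro x hx y hy hxy
    simp only [hx, hy, dif_pos] at hxy
    exact congrArg Subtype.val (e.injective hxy)

end separated

/-- **Theorem.** Let `X` be a compact convex subset of a Hausdorff locally convex real topological
vector space such that the set `ext X` of extreme points is Lindelöf, and let `f : ext X → F` be a
Baire measurable map into a metrizable space (for example a Fréchet space).  Then the range of `f`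
is separable. -/
theorem result {E : Type*} [AddCommGroup E] [Module ℝ E] [TopologicalSpace E]
    [IsTopologicalAddGroup E] [ContinuousSMul ℝ E] [LocallyConvexSpace ℝ E] [T2Space E]
    (X : Set E) (_hconv : Convex ℝ X) (hcomp : IsCompact X)
    (hL : LindelofSpace (X.extremePoints ℝ))
    {F : Type*} [TopologicalSpace F] [MetrizableSpace F]
    (f : X.extremePoints ℝ → F) (hf : BaireMeasurable f) :
    IsSeparable (Set.range f) := by
  classical
  have hL' : IsLindelof (X.extremePoints ℝ) := isLindelof_iff_lindelofSpace.mpr hL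
  let := metrizableSpaceMetric F
  by_contra hsep
  obtain ⟨ε, hε, N, hNs, hNc, hNsep⟩ := exists_uncountable_separated hsep
  obtain ⟨T, hTN, hTc, j, hj⟩ := exists_uncountable_injOn hNc
  -- pairwise disjoint balls around the points of `T`
  have huniq : ∀ t ∈ T, ∀ t' ∈ T, ∀ z : F, z ∈ Metric.ball t (ε / 2) →
      z ∈ Metric.ball t' (ε / 2) → t = t' := by
    intro t ht t' ht' z hz hz'
    by_contra hne
    have h1 := hNsep t (hTN ht) t' (hTN ht') hne
    rw [Metric.mem_ball] at hz hz'
    have h2 := dist_triangle_left t t' z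
    linarith
  let W : Set (ℕ → Bool) → Set F := fun A => ⋃ t ∈ {t | t ∈ T ∧ j t ∈ A}, Metric.ball t (ε / 2)
  have hWo : ∀ A, IsOpen (W A) := fun A => isOpen_biUnion fun t _ => Metric.isOpen_ball
  have hWmem : ∀ A z, z ∈ W A ↔ ∃ t, t ∈ T ∧ j t ∈ A ∧ z ∈ Metric.ball t (ε / 2) := by
    intro A z
    simp only [W, mem_iUnion, mem_ofPred_eq, exists_prop, and_assoc]
  have hrep : ∀ A, ∃ Φ : Set (E →L[ℝ] ℝ), Φ.Countable ∧ ∃ C : Set (Φ → ℝ), MeasurableSet C ∧
      ∀ y : X.extremePoints ℝ, f y ∈ W A ↔ ev Φ y.1 ∈ C :=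
    fun A => exists_repr hcomp hL' (hf (W A) (hWo A))
  choose Φ hΦ C hC hrep using hrep
  have hana : ∀ A : Set (ℕ → Bool), AnalyticSet ((j '' T) ∩ A) := by
    intro A
    let A' : ℕ → Set (ℕ → Bool) := fun n => {a | a n = true}
    obtain ⟨Θ, hΘ, hsub, hmeas⟩ := exists_measurable_image hcomp hL' (Φ A ∪ ⋃ n, Φ (A' n))
      ((hΦ A).union (countable_iUnion fun n => hΦ (A' n)))
    have := hΘ.to_subtype
    have hA : Φ A ⊆ Θ := subset_union_left.trans hsub
    have hn : ∀ n, Φ (A' n) ⊆ Θ := fun n =>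
      (subset_iUnion (fun n => Φ (A' n)) n).trans (subset_union_right.trans hsub)
    let g : (Θ → ℝ) → (ℕ → Bool) := fun u n => decide (restr (hn n) u ∈ C (A' n))
    have hg : Measurable g := by
      refine measurable_pi_lambda _ fun n => ?_
      have hm : MeasurableSet (restr (hn n) ⁻¹' C (A' n)) :=
        (hC (A' n)).preimage (measurable_restr _)
      refine measurable_to_bool ?_
      convert hm using 1
      ext u
      simp [g]
    have hgval : ∀ y : X.extremePoints ℝ, ∀ t ∈ T, f y ∈ Metric.ball t (ε / 2) →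
        g (ev Θ y.1) = j t := by
      intro y t ht hyt
      funext n
      have h1 : restr (hn n) (ev Θ y.1) = ev (Φ (A' n)) y.1 := rfl
      have h2 : (f y ∈ W (A' n)) ↔ j t n = true := by
        rw [hWmem]
        constructor
        · rintro ⟨t', ht', hj', hy'⟩
          rw [huniq t ht t' ht' (f y) hyt hy']
          exact hj'
        · intro h
          exact ⟨t, ht, h, hyt⟩
      have h3 : (restr (hn n) (ev Θ y.1) ∈ C (A' n)) ↔ j t n = true := by
        rw [h1, ← hrep (A' n) y, h2]
      change decide (restr (hn n) (ev Θ y.1) ∈ C (A' n)) = j t n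
      cases hjt : j t n
      · rw [hjt] at h3
        simpa using h3
      · rw [hjt] at h3
        simpa using h3
    have heq : (j '' T) ∩ A = g '' ((ev Θ '' (X.extremePoints ℝ)) ∩ restr hA ⁻¹' C A) := by
      apply Subset.antisymm
      · rintro _ ⟨⟨t, ht, rfl⟩, hjA⟩
        obtain ⟨y, rfl⟩ := hNs (hTN ht)
        refine ⟨ev Θ y.1, ⟨mem_image_of_mem _ y.2, ?_⟩, ?_⟩
        · change ev (Φ A) y.1 ∈ C A
          rw [← hrep A y, hWmem]
          exact ⟨f y, ht, hjA, Metric.mem_ball_self (by positivity)⟩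
        · exact hgval y (f y) ht (Metric.mem_ball_self (by positivity))
      · rintro _ ⟨_, ⟨⟨y, hy, rfl⟩, hyC⟩, rfl⟩
        have h1 : ev (Φ A) y ∈ C A := hyC
        have h2 : f ⟨y, hy⟩ ∈ W A := (hrep A ⟨y, hy⟩).mpr h1
        obtain ⟨t, ht, hjt, hyt⟩ := (hWmem A _).mp h2
        have h3 := hgval ⟨y, hy⟩ t ht hyt
        change g (ev Θ y) = j t at h3
        rw [h3]
        exact ⟨mem_image_of_mem j ht, hjt⟩
    rw [heq]
    exact (hmeas.inter ((hC A).preimage (measurable_restr _))).analyticSet_image hg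
  have hcount := countable_of_forall_analytic (j '' T) hana
  exact hTc (countable_of_injective_of_countable_image hj hcount)

end Pool.Agent.Results.MP_fe178f_an.SeparableRange
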